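import Pool.Agent.H753R3.SC.Stmts4

/-! Task N: countably many points witness that no finite subset of `L` works. -/

set_option autoImplicit false

namespace Pool.Agent.H405R3.SC

open Set Pool.Agent.H753R3.SC

theorem step {P : Type} [PartialOrder P] [TopologicalSpace P] [Topology.IsScott P Set.univ]
    (K L : Set P) (hL : IsCompact L)
    (hKL : ∀ H : Finset P, (∀ h ∈ H, h ∈ L) → ∃ x ∈ K, ∀ h ∈ H, ¬ h ≤ x) (n : ℕ) :
    ∃ F : Set P, F.Finite ∧ F ⊆ K ∧ ∀ h : Fin n → P, (∀ i, h i ∈ L) →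
      ∃ x ∈ F, ∀ i, ¬ h i ≤ x := by
  classical
  by_contra hcon
  push Not at hcon
  have hcl : ∀ x : P, IsClosed {h : Fin n → P | ∃ i, h i ≤ x} := by
    intro x
    have e : {h : Fin n → P | ∃ i, h i ≤ x} = ⋃ i, (fun h : Fin n → P => h i) ⁻¹' (Iic x) := by
      ext h
      simp
    rw [e]
    exact isClosed_iUnion_of_finite fun i => isClosed_Iic.preimage (continuous_apply i)
  have hcomp : IsCompact (Set.pi univ (fun _ : Fin n => L)) := isCompact_univ_pi fun _ => hL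
  obtain ⟨h, hhL, hh⟩ := hcomp.inter_iInter_nonempty
    (fun x : K => {h : Fin n → P | ∃ i, h i ≤ (x : P)}) (fun x => hcl x) (by
      intro u
      obtain ⟨h, h1, h2⟩ := hcon ((Subtype.val '' (u : Set K)) : Set P)
        (u.finite_toSet.image _) (by rintro _ ⟨x, _, rfl⟩; exact x.2)
      refine ⟨h, fun i _ => h1 i, ?_⟩
      rw [mem_iInter₂]
      intro x hx
      exact h2 x ⟨x, hx, rfl⟩)
  obtain ⟨x, hxK, hx⟩ := hKL (Finset.univ.image h) (by
    intro y hy
    obtain ⟨i, _, rfl⟩ := Finset.mem_image.1 hy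
    exact hhL i (mem_univ i))
  rw [mem_iInter] at hh
  obtain ⟨i, hi⟩ := hh ⟨x, hxK⟩
  exact hx (h i) (Finset.mem_image_of_mem h (Finset.mem_univ i)) hi

theorem taskN : TaskN := by
  intro P _ _ _ K L hL hKL
  choose F hF1 hF2 hF3 using step K L hL hKL
  obtain ⟨x0, hx0, -⟩ := hKL ∅ (by simp)
  have hc : (insert x0 (⋃ n, F n)).Countable :=
    (countable_iUnion fun n => (hF1 n).countable).insert x0
  obtain ⟨y, hy⟩ := hc.exists_eq_range ⟨x0, mem_insert _ _⟩
  have hsub : insert x0 (⋃ n, F n) ⊆ K := by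
    intro x hx
    rcases hx with rfl | hx
    · exact hx0
    · obtain ⟨n, hn⟩ := mem_iUnion.1 hx
      exact hF2 n hn
  refine ⟨y, fun k => hsub (hy ▸ mem_range_self k), fun H hH => ?_⟩
  obtain ⟨x, hxF, hx⟩ := hF3 H.card (fun i => (H.equivFin.symm i : P))
    (fun i => hH _ (H.equivFin.symm i).2)
  have hx2 : x ∈ range y := by
    rw [← hy]
    exact mem_insert_of_mem _ (mem_iUnion.2 ⟨_, hxF⟩)
  obtain ⟨k, rfl⟩ := hx2
  refine ⟨k, fun h hh => ?_⟩
  have h3 := hx (H.equivFin ⟨h, hh⟩)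
  simpa using h3

end Pool.Agent.H405R3.SC
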